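import Pool.Agent.Helper486.TP.Final

/-!
# The Riesz measure of the lower envelope of δ-subharmonic functions

In every dimension `n ≥ 1` (in particular for all `n ≥ 3`), for every domain `Ω ⊆ ℝⁿ`, every `m ≥ 2`
and all δ-subharmonic `w₁, …, w_m` in `Ω`, the Riesz measure of `⋀ w_j` is at least the greatest lower
bound of the Riesz measures of the pairwise minima `w_j ∧ w_k`, `j < k`.
-/

set_option autoImplicit false

namespace Pool.Agent.Results.MP_730047_an.RieszEnvelope

open Pool.Agent.Helper486.TP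

/-- Let `Ω` be a domain in `ℝⁿ`, `m ≥ 2`, `w₁, …, w_m` δ-subharmonic in `Ω` and `c > 0` the
normalising constant of Riesz measures `c Δ w`. Then `⋀ w_j` and all `w_j ∧ w_k` have Riesz measures;
and if `μ` is the Riesz measure of `⋀ w_j` and `ρ j k` that of `w_j ∧ w_k` (`j < k`) then the measures
`ρ j k` have a greatest lower bound in the order of signed Radon measures on `Ω`, and (every such)
greatest lower bound is `≤ μ`. -/
theorem result (n : ℕ) (hn : 1 ≤ n) (Ω : Set (E n)) (hΩ : IsOpen Ω) (hΩc : IsConnected Ω) (m : ℕ)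
    (hm : 2 ≤ m) (w : Fin m → E n → EReal) (hw : ∀ j, DeltaSubharmonic Ω (w j)) (c : ℝ)
    (hc : 0 < c) :
    (∃ μ, IsRiesz c Ω (fun x => ⨅ j, w j x) μ) ∧
    (∀ j k, ∃ ρ, IsRiesz c Ω (fun x => min (w j x) (w k x)) ρ) ∧
    ∀ (μ : SignedRadon Ω) (ρ : Fin m → Fin m → SignedRadon Ω),
      IsRiesz c Ω (fun x => ⨅ j, w j x) μ →
      (∀ j k, j < k → IsRiesz c Ω (fun x => min (w j x) (w k x)) (ρ j k)) →
      (∃ I, IsGLB {κ | ∃ j k, j < k ∧ κ = ρ j k} I) ∧
      ∀ I, IsGLB {κ | ∃ j k, j < k ∧ κ = ρ j k} I → I ≤ μ :=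
  riesz_envelope hn hΩ hΩc.isPreconnected hm w hw hc

end Pool.Agent.Results.MP_730047_an.RieszEnvelope
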